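import Pool.Agent.Q276.VD.A2

/-!
# Principal minors of skew-Hermitian plus rank-one Hermitian matrices

We prove the statement of Q1, for every valued field with a valuation-preserving involution (in
particular in characteristic `0` with residue characteristic `2`): for `B` skew-Hermitian and `C`
Hermitian of rank at most one, `S ↦ ν ((B + C)_S)` is a valuated `Δ`-matroid.

Proof.  The matrices `A = B + C` satisfy `rank (A + A^*) ≤ 1`, and this property is inherited by
principal pivot transforms (`A + A^*` is replaced by a congruent matrix), so by Tucker's identity it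
suffices to exclude an edge from `0` to `e_D` with `|D| ≥ 3`.  After tilting by the supporting
functional `μ`, all principal minors of order one and two are small, i.e. `ν > μ(U)`.  Since
`H = A + A^*` has rank at most one, `2 ν(H_ij) = ν(H_ii) + ν(H_jj) > μ_i + μ_j`.  If
`ν(A_ij) ≤ (μ_i + μ_j)/2`, then `ν(A_ji) = ν(A_ij)` and `ν(A_ij A_ji) ≤ μ_i + μ_j`, so that the
principal minor of `{i, j}` is not small.  Hence all the entries are small, and so is `A_D`.
-/

set_option autoImplicit false

open Matrix

namespace Pool.Agent.Results.MP_c0a4b6_co.PrincipalMinors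

variable {n : ℕ}

/-- the vertex `e_S` of the cube `{0,1}^n` -/
def e (S : Finset (Fin n)) : Fin n → ℝ := fun i => if i ∈ S then 1 else 0

/-- the lifted points `(e_S, p(S))`, for `p(S) ≠ ∞` -/
def lifted (p : Finset (Fin n) → WithTop ℝ) : Set ((Fin n → ℝ) × ℝ) :=
  {q | ∃ S, q.1 = e S ∧ p S = (q.2 : WithTop ℝ)}

/-- the functional `(x, t) ↦ ⟨u, x⟩ + t` on `ℝ^(n+1)` (its last coefficient is positive) -/
def height (u : Fin n → ℝ) (q : (Fin n → ℝ) × ℝ) : ℝ := ∑ i, u i * q.1 i + q.2

/-- the lower face, in direction `u`, of `conv {(e_S, p(S)) : p(S) ≠ ∞}`: the set of the points of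
this polytope at which `(x, t) ↦ ⟨u, x⟩ + t` is minimal -/
def lowerFace (p : Finset (Fin n) → WithTop ℝ) (u : Fin n → ℝ) : Set ((Fin n → ℝ) × ℝ) :=
  {q | q ∈ convexHull ℝ (lifted p) ∧ ∀ r ∈ convexHull ℝ (lifted p), height u q ≤ height u r}

/-- the edges of the subdivision induced by `p`: its one-dimensional cells, the cells being the
projections to `ℝ^n` of the lower faces -/
def IsEdge (p : Finset (Fin n) → WithTop ℝ) (c : Set (Fin n → ℝ)) : Prop :=
  (∃ u, c = Prod.fst '' lowerFace p u) ∧ Module.finrank ℝ (vectorSpan ℝ c) = 1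

/-- `p` is a valuated `Δ`-matroid: every edge of the subdivision induced by `p` has a direction `e_i`
or `e_i + e_j` or `e_i - e_j` (up to sign), `i ≠ j` -/
def IsValuatedDeltaMatroid (p : Finset (Fin n) → WithTop ℝ) : Prop :=
  ∀ c, IsEdge p c → ∃ d : Fin n → ℝ, vectorSpan ℝ c = Submodule.span ℝ {d} ∧
    ∃ i j : Fin n, d = Pi.single i 1 ∨
      (i ≠ j ∧ (d = Pi.single i 1 + Pi.single j 1 ∨ d = Pi.single i 1 - Pi.single j 1))

lemma height_comb (u : Fin n → ℝ) (a b : ℝ) (q r : (Fin n → ℝ) × ℝ) :
    height u (a • q + b • r) = a * height u q + b * height u r := by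
  unfold height
  simp only [Prod.fst_add, Prod.snd_add, Prod.smul_fst, Prod.smul_snd, Pi.add_apply,
    Pi.smul_apply, smul_eq_mul]
  rw [mul_add, mul_add, Finset.mul_sum, Finset.mul_sum]
  have : ∑ i, u i * (a * q.1 i + b * r.1 i) =
      ∑ i, a * (u i * q.1 i) + ∑ i, b * (u i * r.1 i) := by
    rw [← Finset.sum_add_distrib]
    exact Finset.sum_congr rfl (fun i _ => by ring)
  rw [this]; ring

lemma face_hull (p : Finset (Fin n) → WithTop ℝ) (u : Fin n → ℝ) (c : ℝ)
    (hc : ∀ r ∈ lifted p, c ≤ height u r) :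
    ∀ q ∈ convexHull ℝ (lifted p), c ≤ height u q ∧
      (height u q = c → q ∈ convexHull ℝ {r | r ∈ lifted p ∧ height u r = c}) := by
  intro q hq
  have hsub : convexHull ℝ (lifted p) ⊆ {q | c ≤ height u q ∧
      (height u q = c → q ∈ convexHull ℝ {r | r ∈ lifted p ∧ height u r = c})} := by
    refine convexHull_min ?_ ?_
    · intro r hr
      exact ⟨hc r hr, fun h => subset_convexHull ℝ _ ⟨hr, h⟩⟩
    · intro x hx y hy a b ha hb hab
      obtain ⟨hx1, hx2⟩ := hx
      obtain ⟨hy1, hy2⟩ := hy
      have hcc : a * c + b * c = c := by rw [← add_mul, hab, one_mul]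
      have hxa := mul_le_mul_of_nonneg_left hx1 ha
      have hyb := mul_le_mul_of_nonneg_left hy1 hb
      refine ⟨?_, ?_⟩
      · rw [height_comb]
        linarith
      · intro h
        rw [height_comb] at h
        rcases ha.eq_or_lt with ha0 | ha0
        · have hb1 : b = 1 := by linarith
          rw [← ha0, hb1, zero_smul, one_smul, zero_add]
          rw [← ha0, hb1] at h
          exact hy2 (by linarith)
        rcases hb.eq_or_lt with hb0 | hb0
        · have ha1 : a = 1 := by linarith
          rw [← hb0, ha1, zero_smul, one_smul, add_zero]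
          rw [← hb0, ha1] at h
          exact hx2 (by linarith)
        · have hx3 : height u x = c := by
            by_contra hne
            have h1 : c < height u x := lt_of_le_of_ne hx1 (Ne.symm hne)
            linarith [mul_lt_mul_of_pos_left h1 ha0]
          have hy3 : height u y = c := by
            by_contra hne
            have h1 : c < height u y := lt_of_le_of_ne hy1 (Ne.symm hne)
            linarith [mul_lt_mul_of_pos_left h1 hb0]
          exact convex_convexHull ℝ _ (hx2 hx3) (hy2 hy3) ha hb hab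
  exact hsub hq

lemma e_injective : Function.Injective (e (n := n)) := by
  intro S T h
  ext i
  have h1 := congrFun h i
  unfold e at h1
  by_cases h2 : i ∈ S <;> by_cases h3 : i ∈ T <;> simp_all

/-- The combinatorial description of an edge. -/
lemma edge_pair (p : Finset (Fin n) → WithTop ℝ) (c : Set (Fin n → ℝ)) (h : IsEdge p c) :
    ∃ (S T : Finset (Fin n)) (u : Fin n → ℝ) (s t : ℝ), S ≠ T ∧
      vectorSpan ℝ c = Submodule.span ℝ {e T - e S} ∧ p S = (s : WithTop ℝ) ∧
      p T = (t : WithTop ℝ) ∧ height u (e S, s) = height u (e T, t) ∧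
      ∀ U, U ≠ S → U ≠ T → ∀ r : ℝ, p U = (r : WithTop ℝ) →
        height u (e S, s) < height u (e U, r) := by
  obtain ⟨⟨u, hu⟩, hdim⟩ := h
  have hne : c.Nonempty := by
    by_contra hemp
    rw [Set.not_nonempty_iff_eq_empty] at hemp
    rw [hemp, vectorSpan_empty] at hdim
    simp at hdim
  obtain ⟨x0, hx0⟩ := hne
  rw [hu] at hx0
  obtain ⟨q0, hq0, -⟩ := hx0
  set m : ℝ := height u q0 with hm
  have hmin : ∀ r ∈ lifted p, m ≤ height u r :=
    fun r hr => hq0.2 r (subset_convexHull ℝ _ hr)
  have hface : lowerFace p u ⊆ convexHull ℝ {r | r ∈ lifted p ∧ height u r = m} := by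
    intro q hq
    refine (face_hull p u m hmin q hq.1).2 (le_antisymm (hq.2 q0 hq0.1) (hq0.2 q hq.1))
  -- the vertices
  set V : Set (Fin n → ℝ) := Prod.fst '' {r | r ∈ lifted p ∧ height u r = m} with hV
  have hVc : V ⊆ c := by
    rw [hu, hV]
    refine Set.image_mono ?_
    rintro r ⟨hr1, hr2⟩
    refine ⟨subset_convexHull ℝ _ hr1, fun r' hr' => ?_⟩
    rw [hr2]
    exact (face_hull p u m hmin r' hr').1
  have hcV : c ⊆ convexHull ℝ V := by
    rw [hu, hV]
    have h1 : Prod.fst '' (convexHull ℝ {r | r ∈ lifted p ∧ height u r = m}) =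
        convexHull ℝ (Prod.fst '' {r | r ∈ lifted p ∧ height u r = m}) :=
      (LinearMap.fst ℝ (Fin n → ℝ) ℝ).image_convexHull _
    rw [← h1]
    exact Set.image_mono hface
  have hspan : vectorSpan ℝ c = vectorSpan ℝ V := by
    refine le_antisymm ?_ (vectorSpan_mono ℝ hVc)
    refine (vectorSpan_mono ℝ hcV).trans ?_
    rw [← direction_affineSpan, affineSpan_convexHull, direction_affineSpan]
  rw [hspan] at hdim ⊢
  -- two vertices
  have hVe : ∀ x ∈ V, ∃ S r, x = e S ∧ p S = ((r : ℝ) : WithTop ℝ) ∧ height u (e S, r) = m := by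
    rintro x ⟨q, ⟨⟨S, hS1, hS2⟩, hq2⟩, rfl⟩
    refine ⟨S, q.2, hS1, hS2, ?_⟩
    rw [← hS1]; exact hq2
  have hVsub : ¬ V.Subsingleton := by
    intro hsub
    rw [vectorSpan_of_subsingleton ℝ hsub] at hdim
    simp at hdim
  rw [Set.not_subsingleton_iff] at hVsub
  obtain ⟨x, hx, y, hy, hxy⟩ := hVsub
  obtain ⟨S, s, hS, hpS, hhS⟩ := hVe x hx
  obtain ⟨T, t, hT, hpT, hhT⟩ := hVe y hy
  have hST : S ≠ T := by
    rintro rfl
    exact hxy (hS.trans hT.symm)
  have hd0 : e T - e S ≠ 0 := sub_ne_zero.2 (fun h => hST (e_injective h).symm)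
  have hmem : e T - e S ∈ vectorSpan ℝ V := by
    have := vsub_mem_vectorSpan ℝ hy hx
    rwa [hS, hT, vsub_eq_sub] at this
  have hspan2 : vectorSpan ℝ V = Submodule.span ℝ {e T - e S} := by
    have hle : Submodule.span ℝ {e T - e S} ≤ vectorSpan ℝ V := by
      rw [Submodule.span_le, Set.singleton_subset_iff]
      exact hmem
    refine (Submodule.eq_of_le_of_finrank_eq hle ?_).symm
    rw [finrank_span_singleton hd0, hdim]
  refine ⟨S, T, u, s, t, hST, hspan2, hpS, hpT, hhS.trans hhT.symm, ?_⟩
  intro U hUS hUT r hr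
  rw [hhS]
  refine lt_of_le_of_ne (hmin (e U, r) ⟨U, rfl, hr⟩) ?_
  intro heq
  -- `U` is a third vertex
  have hUV : e U ∈ V := ⟨(e U, r), ⟨⟨U, rfl, hr⟩, heq.symm⟩, rfl⟩
  have hmem2 : e U - e S ∈ Submodule.span ℝ {e T - e S} := by
    rw [← hspan2]
    have := vsub_mem_vectorSpan ℝ hUV hx
    rwa [hS, vsub_eq_sub] at this
  obtain ⟨a, ha⟩ := Submodule.mem_span_singleton.1 hmem2
  have ha0 : a ≠ 0 := by
    rintro rfl
    rw [zero_smul] at ha
    exact hUS (e_injective (sub_eq_zero.1 ha.symm))
  have hcoord : ∀ i, a * (e T i - e S i) = e U i - e S i := by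
    intro i
    have := congrFun ha i
    simpa using this
  have h01 : ∀ (W : Finset (Fin n)) i, e W i = 0 ∨ e W i = 1 := by
    intro W i
    unfold e
    split_ifs
    · exact Or.inr rfl
    · exact Or.inl rfl
  have ha1 : a = 1 := by
    obtain ⟨i, hi⟩ : ∃ i, e T i - e S i ≠ 0 := by
      by_contra hcon
      push Not at hcon
      exact hd0 (funext hcon)
    have h1 := hcoord i
    rcases h01 T i with hT1 | hT1 <;> rcases h01 S i with hS1 | hS1 <;>
      rcases h01 U i with hU1 | hU1 <;> rw [hT1, hS1, hU1] at h1 <;> rw [hT1, hS1] at hi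
    · exact absurd (by norm_num) hi
    · exact absurd (by norm_num) hi
    · linarith
    · exact absurd (by linarith) ha0
    · exact absurd (by linarith) ha0
    · linarith
    · exact absurd (by norm_num) hi
    · exact absurd (by norm_num) hi
  rw [ha1, one_smul] at ha
  exact hUT (e_injective (by
    have := sub_left_inj.1 ha
    exact this.symm))

lemma e_sub (S T : Finset (Fin n)) (k : Fin n) :
    e T k - e S k = if k ∈ symmDiff S T then (if k ∈ S then -1 else 1) else 0 := by
  unfold e
  simp only [Finset.mem_symmDiff]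
  by_cases h1 : k ∈ S <;> by_cases h2 : k ∈ T <;> simp [h1, h2]

lemma height_diff (u : Fin n → ℝ) (S U : Finset (Fin n)) (s r : ℝ) :
    height u (e (symmDiff S U), r) - height u (e S, s) =
      (r - s) - ∑ i ∈ U, (if i ∈ S then u i else - u i) := by
  unfold height
  have h1 : ∑ i, u i * e (symmDiff S U) i = ∑ i, u i * e S i -
      ∑ i ∈ U, (if i ∈ S then u i else - u i) := by
    have h2 : ∑ i ∈ U, (if i ∈ S then u i else - u i) =
        ∑ i, (if i ∈ U then (if i ∈ S then u i else - u i) else 0) := by
      rw [Finset.sum_ite_mem, Finset.univ_inter]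
    rw [h2, ← Finset.sum_sub_distrib]
    refine Finset.sum_congr rfl (fun i _ => ?_)
    unfold e
    simp only [Finset.mem_symmDiff]
    by_cases h1 : i ∈ S <;> by_cases h2 : i ∈ U <;> simp [h1, h2]
  simp only
  rw [h1]; ring

lemma span_neg_eq {x d : Fin n → ℝ} (h : x = -d) :
    Submodule.span ℝ {x} = Submodule.span ℝ {d} := by
  rw [h, ← Set.neg_singleton, Submodule.span_neg]

/-- the principal minor `A_S` of the matrix `A`, with `A_∅ = 1` -/
def principalMinor {K : Type*} [Field K] (A : Matrix (Fin n) (Fin n) K) (S : Finset (Fin n)) : K :=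
  (A.submatrix (fun i : S => (i : Fin n)) (fun i : S => (i : Fin n))).det

/-- **Main theorem.**  Let `K` be a field with a nonarchimedean valuation `ν : K → ℝ ∪ {∞}` and an
involution `a ↦ star a` (possibly the identity) preserving `ν`.  For every `n`, every skew-Hermitian
`B` and every Hermitian `C` of rank at most one, `S ↦ ν ((B + C)_S)` is a valuated `Δ`-matroid.  (No
hypothesis is made on the characteristics of `K` and of its residue field.) -/
theorem result {K : Type*} [Field K] [StarRing K] (ν : AddValuation K (WithTop ℝ))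
    (hν : ∀ a, ν (star a) = ν a) (n : ℕ) (B C : Matrix (Fin n) (Fin n) K) (hB : Bᴴ = -B)
    (hC : Cᴴ = C) (hrank : C.rank ≤ 1) :
    IsValuatedDeltaMatroid (fun S => ν (principalMinor (B + C) S)) := by
  classical
  set A : Matrix (Fin n) (Fin n) K := B + C with hA
  have hAr : (A + Aᴴ).rank ≤ 1 := by
    have h1 : A + Aᴴ = C * (1 + 1) := by
      rw [hA, Matrix.conjTranspose_add, hB, hC, Matrix.mul_add, Matrix.mul_one]
      abel
    rw [h1]
    exact (Matrix.rank_mul_le_left _ _).trans hrank
  intro c hc
  obtain ⟨S, T, u, s, t, hST, hspan, hS, hT, hh, hU⟩ := edge_pair _ c hc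
  change ν (Pool.Agent.Q276.VD.pm A S) = (s : WithTop ℝ) at hS
  change ν (Pool.Agent.Q276.VD.pm A T) = (t : WithTop ℝ) at hT
  change ∀ U, U ≠ S → U ≠ T → ∀ r : ℝ, ν (Pool.Agent.Q276.VD.pm A U) = (r : WithTop ℝ) →
        height u (e S, s) < height u (e U, r) at hU
  have hS0 : Pool.Agent.Q276.VD.pm A S ≠ 0 := by
    intro h
    rw [h, ν.map_zero] at hS
    exact WithTop.top_ne_coe hS
  set A' := Pool.Agent.Q276.VD.ppt S A with hA'
  have hA'r : (A' + A'ᴴ).rank ≤ 1 := Pool.Agent.Q276.VD.rank_ppt S A hS0 hAr
  have htuck : ∀ U, ν (Pool.Agent.Q276.VD.pm A' U) + (s : WithTop ℝ) =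
      ν (Pool.Agent.Q276.VD.pm A (symmDiff S U)) := by
    intro U
    rw [← Pool.Agent.Q276.VD.tucker S U A hS0, ν.map_mul, hS]
  set D := symmDiff S T with hD
  set μ : Fin n → ℝ := fun i => if i ∈ S then u i else - u i with hμ
  have hSD : symmDiff S D = T := by rw [hD, symmDiff_symmDiff_cancel_left]
  have hcard : D.card ≤ 2 := by
    by_contra hcon
    push Not at hcon
    have h1 := Pool.Agent.Q276.VD.det_lt ν hν A' hA'r μ D hcon (by
      intro U hUD hUne hUD'
      have hW1 : symmDiff S U ≠ S := by
        intro h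
        have : U = ∅ := by
          have := congrArg (symmDiff S) h
          rw [symmDiff_symmDiff_cancel_left, symmDiff_self] at this
          simpa using this
        rw [this] at hUne
        exact Finset.not_nonempty_empty hUne
      have hW2 : symmDiff S U ≠ T := by
        intro h
        apply hUD'
        rw [hD, ← h, symmDiff_symmDiff_cancel_left]
      have h2 := htuck U
      have h3 := hU (symmDiff S U) hW1 hW2
      rw [← h2] at h3
      generalize ν (Pool.Agent.Q276.VD.pm A' U) = x at h3 ⊢
      induction x with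
      | top => exact WithTop.coe_lt_top _
      | coe x =>
        have h4 := h3 (x + s) (by push_cast; rfl)
        have h5 := height_diff u S U s (x + s)
        have h6 : ∑ i ∈ U, μ i < x := by
          simp only [hμ]
          linarith
        exact_mod_cast h6)
    have h2 := htuck D
    rw [hSD, hT] at h2
    generalize ν (Pool.Agent.Q276.VD.pm A' D) = x at h1 h2
    induction x with
    | top => rw [top_add] at h2; exact WithTop.top_ne_coe h2
    | coe x =>
      have h3 : x + s = t := by exact_mod_cast h2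
      have h4 := height_diff u S D s t
      rw [hSD, ← hh] at h4
      have h5 : ∑ i ∈ D, μ i < x := by exact_mod_cast h1
      simp only [hμ] at h5
      linarith
  have hDne : D.Nonempty := by
    rw [hD, Finset.nonempty_iff_ne_empty]
    intro h
    exact hST (symmDiff_eq_bot.1 h)
  have hval : ∀ k, (e T - e S) k = if k ∈ D then (if k ∈ S then -1 else 1) else 0 :=
    fun k => e_sub S T k
  rw [hspan]
  have hcases : D.card = 1 ∨ D.card = 2 := by
    have := Finset.card_pos.2 hDne
    omega
  rcases hcases with h1 | h2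
  · obtain ⟨i, hi⟩ := Finset.card_eq_one.1 h1
    refine ⟨Pi.single i 1, ?_, i, i, Or.inl rfl⟩
    by_cases hiS : i ∈ S
    · refine span_neg_eq ?_
      ext k
      rw [hval, hi, Pi.neg_apply, Pi.single_apply]
      by_cases hk : k = i
      · simp [hk, hiS]
      · simp [hk]
    · congr 2
      ext k
      rw [hval, hi, Pi.single_apply]
      by_cases hk : k = i
      · simp [hk, hiS]
      · simp [hk]
  · obtain ⟨i, j, hij, hD2⟩ := Finset.card_eq_two.1 h2
    by_cases hiS : i ∈ S <;> by_cases hjS : j ∈ S
    · refine ⟨Pi.single i 1 + Pi.single j 1, ?_, i, j, Or.inr ⟨hij, Or.inl rfl⟩⟩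
      refine span_neg_eq ?_
      ext k
      rw [hval, hD2, Pi.neg_apply, Pi.add_apply, Pi.single_apply, Pi.single_apply]
      by_cases hk : k = i
      · simp [hk, hiS, hij]
      · by_cases hk2 : k = j
        · simp [hk2, hjS, Ne.symm hij]
        · simp [hk, hk2]
    · refine ⟨Pi.single i 1 - Pi.single j 1, ?_, i, j, Or.inr ⟨hij, Or.inr rfl⟩⟩
      refine span_neg_eq ?_
      ext k
      rw [hval, hD2, Pi.neg_apply, Pi.sub_apply, Pi.single_apply, Pi.single_apply]
      by_cases hk : k = i
      · simp [hk, hiS, hij]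
      · by_cases hk2 : k = j
        · simp [hk2, hjS, Ne.symm hij]
        · simp [hk, hk2]
    · refine ⟨Pi.single i 1 - Pi.single j 1, ?_, i, j, Or.inr ⟨hij, Or.inr rfl⟩⟩
      congr 2
      ext k
      rw [hval, hD2, Pi.sub_apply, Pi.single_apply, Pi.single_apply]
      by_cases hk : k = i
      · simp [hk, hiS, hij]
      · by_cases hk2 : k = j
        · simp [hk2, hjS, Ne.symm hij]
        · simp [hk, hk2]
    · refine ⟨Pi.single i 1 + Pi.single j 1, ?_, i, j, Or.inr ⟨hij, Or.inl rfl⟩⟩
      congr 2
      ext k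
      rw [hval, hD2, Pi.add_apply, Pi.single_apply, Pi.single_apply]
      by_cases hk : k = i
      · simp [hk, hiS, hij]
      · by_cases hk2 : k = j
        · simp [hk2, hjS, Ne.symm hij]
        · simp [hk, hk2]

end Pool.Agent.Results.MP_c0a4b6_co.PrincipalMinors
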